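import Pool.Agent.H9.HamTour.Main

/-!
# The numbers of Hamiltonian circuits of 7-tournaments have a gap
-/

namespace Pool.Agent.Results.MP_9038fc_co.SevenVertexGap

open Pool.Agent.H9.HamTour

/-- It is not true that for every `n ≥ 1` every `h ≤ h_o(n)` is the number of Hamiltonian circuits
of an `n`-tournament. In fact `h_o(7) = 24`, and the number of Hamiltonian circuits of a
7-tournament is at most 15, or 17, or 24. -/
theorem result :
    (¬ ∀ (n : ℕ) [NeZero n] (h : ℕ), h ≤ ho n → ∃ T : Tournament n, T.numHam = h) ∧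
    ho 7 = 24 ∧ ∀ T : Tournament 7, T.numHam ≤ 15 ∨ T.numHam = 17 ∨ T.numHam = 24 :=
  main

end Pool.Agent.Results.MP_9038fc_co.SevenVertexGap
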